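import Pool.Agent.Work.MP_dbfdd9_lc.Hedge.Main

/-!
Constrained synchronization below polynomial time.
-/

namespace Pool.Agent.Results.MP_dbfdd9_lc.LogSplit

open Pool.Agent.Lib.Cx Pool.Agent.Work.MP_dbfdd9_lc Pool.Agent.Work.MP_dbfdd9_lc.Hedge

/-- Let `L` be regular.  If `L` contains no set `x {u, v}* y` with `u v ≠ v u`, then
`L`-CONSTR-SYNC is in `LOGSPACE` or `NP`-complete; otherwise it is `NL`-complete or `NP`-hard
(logspace reductions). -/
theorem result (k : ℕ) (L : Language (Fin k)) (hL : L.IsRegular) :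
    (¬Branching L → ConstrSync L ∈ LOGSPACE ∨ LogComplete N68a2faeb.NP (ConstrSync L)) ∧
    (Branching L → LogComplete NL (ConstrSync L) ∨
      ∀ A ∈ N68a2faeb.NP, LogReducible A (ConstrSync L)) :=
  fine L hL

end Pool.Agent.Results.MP_dbfdd9_lc.LogSplit
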