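import Pool.Agent.Work.MP_dbfdd9_lc.Main

/-!
Complexity trichotomy for constrained synchronization.
-/

namespace Pool.Agent.Results.MP_dbfdd9_lc.Trichotomy

open Pool.Agent.Lib.Cx Pool.Agent.Work.MP_dbfdd9_lc

/-- For every finite alphabet and every regular constraint language `L`, the problem
`L`-CONSTR-SYNC is in `P`, or `NP`-complete, or `PSPACE`-complete (logspace reductions). -/
theorem result (k : ℕ) (L : Language (Fin k)) (hL : L.IsRegular) :
    ConstrSync L ∈ N68a2faeb.P ∨ LogComplete N68a2faeb.NP (ConstrSync L) ∨
      LogComplete PSPACE (ConstrSync L) :=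
  trichotomy L hL

end Pool.Agent.Results.MP_dbfdd9_lc.Trichotomy
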